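import Pool.Agent.Lib.MP_775b3b_nt.CM3.G9

namespace Pool.Agent.Results.MP_775b3b_nt.AllGalois

open NumberField

/-- Let `F / ℚ` be Galois of odd discriminant, without a prime of even ramification index and
residue degree divisible by three.  Then infinitely many rational numbers are invariants of
elliptic curves over `ℚ` with finitely many points over `F`. -/
theorem result (F : Type) [Field F] [NumberField F] [IsGalois ℚ F] (hodd : Odd (discr F))
    (h3 : ∀ P : Ideal (𝓞 F), P.IsMaximal → Even (P.ramificationIdx ℤ) → ¬ 3 ∣ P.inertiaDeg ℤ) :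
    {j : ℚ | ∃ (E : WeierstrassCurve ℚ) (_ : E.IsElliptic), E.j = j ∧
      Finite (E.toAffine.baseChange F).Point}.Infinite :=
  Pool.Agent.Lib.MP_775b3b_nt.CM.main_all F hodd h3

end Pool.Agent.Results.MP_775b3b_nt.AllGalois
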