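import Pool.Agent.Lib.MP_775b3b_nt.M2.RD

namespace Pool.Agent.Results.MP_775b3b_nt.ArtinCyclic

open Pool.Agent.Lib.MP_775b3b_nt

/-- Let `F / ℚ` be Galois with group `G` such that every 2-subgroup of `G` fixing a prime above two
is cyclic, let `P` be a 2-subgroup of index one or three, `τ ∈ P` with `τ^2 = 1` in no other
conjugate of `P`, and `ε = ± 1`.  For a positive proportion of the curves `y^2 = x^3 + A x + B`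
ordered by height, the following irreducible representations do not occur in `ℂ ⊗ E(F)`: those
with a vector `w ≠ 0` and an element `a` of the integral group ring of odd augmentation such that
`τ` acts by `ε` on `a p w` for all `p ∈ P`. -/
theorem result (F : Type) [Field F] [NumberField F] [DecidableEq F] [IsGalois ℚ F]
    (hcyc : ∀ 𝔓 : Ideal (NumberField.RingOfIntegers F), 𝔓.IsPrime → 2 ∈ 𝔓 →
      ∀ Q : Subgroup (F ≃ₐ[ℚ] F), IsPGroup 2 Q → (∀ g ∈ Q, ∀ x ∈ 𝔓, g • x ∈ 𝔓) → IsCyclic Q)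
    (P : Subgroup (F ≃ₐ[ℚ] F)) (h2 : IsPGroup 2 P)
    (h3 : P.index ∣ 3) (τ : F ≃ₐ[ℚ] F) (hτ : τ ∈ P) (hτ2 : τ * τ = 1)
    (hP : ∀ g : F ≃ₐ[ℚ] F, g * τ * g⁻¹ ∈ P → ∀ p ∈ P, g * p * g⁻¹ ∈ P) (ε : ℤˣ) :
    ∃ c : ℝ, 0 < c ∧ ∃ X₀ : ℝ, ∀ X : ℝ, X₀ ≤ X → ∀ S : Finset (ℤ × ℤ),
      (∀ e : ℤ × ℤ, e ∈ S ↔ 4 * e.1 ^ 3 + 27 * e.2 ^ 2 ≠ 0 ∧
        (∀ p : ℕ, p.Prime → ¬ ((p : ℤ) ^ 4 ∣ e.1 ∧ (p : ℤ) ^ 6 ∣ e.2)) ∧
        ((max (4 * |e.1| ^ 3) (27 * e.2 ^ 2) : ℤ) : ℝ) < X) →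
      c * S.card ≤ {e : ℤ × ℤ | e ∈ S ∧ ∀ (W : Type) [AddCommGroup W] [Module ℂ W]
        (ρ : Representation ℂ (F ≃ₐ[ℚ] F) W), ρ.IsIrreducible →
        (∃ (w : W) (a : (F ≃ₐ[ℚ] F) → ℤ), w ≠ 0 ∧ Odd (∑ g, a g) ∧ ∀ p ∈ P,
          ρ τ (∑ g, (a g : ℂ) • ρ (g * p) w) = ((ε : ℤ) : ℂ) • ∑ g, (a g : ℂ) • ρ (g * p) w) →
        ∀ T : W →ₗ[ℂ] TensorProduct ℤ ℂ (WeierstrassCurve.Affine.baseChange
            (⟨0, 0, 0, (e.1 : ℚ), (e.2 : ℚ)⟩ : WeierstrassCurve ℚ).toAffine F).Point,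
          (∀ (g : F ≃ₐ[ℚ] F) (w : W), T (ρ g w) = LinearMap.baseChange ℂ
            (WeierstrassCurve.Affine.Point.map (g : F →ₐ[ℚ] F)).toIntLinearMap (T w)) →
          T = 0}.ncard := by
  classical
  obtain ⟨c', hc', X₀, hX⟩ := dens_ann (cyc2_of_ideal hcyc) P h2 h3 hτ hτ2 hP ε
  refine ⟨c', hc', X₀, fun X h1 S hS => (hX X h1 S hS).trans (Nat.cast_le.2 ?_)⟩
  rw [← Set.ncard_coe_finset]
  refine Set.ncard_le_ncard (fun e he => ?_) (S.finite_toSet.subset fun e he => he.1)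
  simp only [Finset.coe_filter, Set.mem_ofPred_eq] at he
  obtain ⟨h4, h5⟩ := he
  exact ⟨h4, fun W _ _ ρ hρ ⟨w, a, h0, ha, hw⟩ T hT => h5.eq_zero hρ h0 ha hw hT⟩

/-- The hypothesis at two holds if the discriminant is odd. -/
theorem cyclic_of_odd (F : Type) [Field F] [NumberField F] [IsGalois ℚ F]
    (hodd : Odd (NumberField.discr F)) :
    ∀ 𝔓 : Ideal (NumberField.RingOfIntegers F), 𝔓.IsPrime → 2 ∈ 𝔓 →
      ∀ Q : Subgroup (F ≃ₐ[ℚ] F), IsPGroup 2 Q → (∀ g ∈ Q, ∀ x ∈ 𝔓, g • x ∈ 𝔓) → IsCyclic Q :=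
  fun 𝔓 h1 h2 => cyc_of_odd 𝔓 h1 h2 (cyc_of_odd_discr hodd 𝔓 h1 h2)

/-- If the Galois group has a normal 2-subgroup of index one or three, a positive proportion of the
curves have finitely many points over `F`. -/
theorem finite (F : Type) [Field F] [NumberField F] [IsGalois ℚ F]
    (hcyc : ∀ 𝔓 : Ideal (NumberField.RingOfIntegers F), 𝔓.IsPrime → 2 ∈ 𝔓 →
      ∀ Q : Subgroup (F ≃ₐ[ℚ] F), IsPGroup 2 Q → (∀ g ∈ Q, ∀ x ∈ 𝔓, g • x ∈ 𝔓) → IsCyclic Q)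
    (P : Subgroup (F ≃ₐ[ℚ] F)) (h2 : IsPGroup 2 P) (h3 : P.index ∣ 3)
    (hP : ∀ g : F ≃ₐ[ℚ] F, ∀ p ∈ P, g * p * g⁻¹ ∈ P) :
    ∃ c : ℝ, 0 < c ∧ ∃ X₀ : ℝ, ∀ X : ℝ, X₀ ≤ X → ∀ S : Finset (ℤ × ℤ),
      (∀ e : ℤ × ℤ, e ∈ S ↔ 4 * e.1 ^ 3 + 27 * e.2 ^ 2 ≠ 0 ∧
        (∀ p : ℕ, p.Prime → ¬ ((p : ℤ) ^ 4 ∣ e.1 ∧ (p : ℤ) ^ 6 ∣ e.2)) ∧
        ((max (4 * |e.1| ^ 3) (27 * e.2 ^ 2) : ℤ) : ℝ) < X) →
      c * S.card ≤ {e : ℤ × ℤ | e ∈ S ∧ ∃ T : Finset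
        (⟨0, 0, 0, (e.1 : F), (e.2 : F)⟩ : WeierstrassCurve F).toAffine.Point,
          ∀ R, R ∈ T}.ncard := by
  classical
  have : P.Normal := ⟨fun p hp g => hP g p hp⟩
  obtain ⟨c, hc, X₀, h⟩ := Many.dens_one (r := fun e => Finite (crv e F).toAffine.Point)
    ((many_triv (cyc2_of_ideal hcyc) P h2 h3).mono fun e d a1 a2 a3 => by
      have a4 : (d : ℤ) ≠ 0 := Int.natCast_ne_zero.2 a2
      refine finite_of_rank_zero ?_ (rank_zero_tw a1 a4 (by rw [Int.cast_natCast]; exact a3))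
      rw [disc_tw]
      exact mul_ne_zero (pow_ne_zero _ a4) a1)
  refine ⟨c, hc, X₀, fun X h1 S hS => (h X h1 S hS).trans (Nat.cast_le.2 ?_)⟩
  rw [← Set.ncard_coe_finset]
  refine Set.ncard_le_ncard (fun e he => ?_) (S.finite_toSet.subset fun e he => he.1)
  simp only [Finset.coe_filter, Set.mem_ofPred_eq] at he
  have : Finite (⟨0, 0, 0, (e.1 : F), (e.2 : F)⟩ : WeierstrassCurve F).toAffine.Point := he.2
  exact ⟨he.1, (Set.finite_univ).toFinset, fun R => by simp⟩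

/-- If the Galois group is cyclic of order dividing `3 * 2 ^ k`, a positive proportion of the curves
have finitely many points over `F`. -/
theorem cyclic (F : Type) [Field F] [NumberField F] [IsGalois ℚ F]
    (hG : IsCyclic (F ≃ₐ[ℚ] F)) (k : ℕ) (hk : Nat.card (F ≃ₐ[ℚ] F) ∣ 3 * 2 ^ k) :
    ∃ c : ℝ, 0 < c ∧ ∃ X₀ : ℝ, ∀ X : ℝ, X₀ ≤ X → ∀ S : Finset (ℤ × ℤ),
      (∀ e : ℤ × ℤ, e ∈ S ↔ 4 * e.1 ^ 3 + 27 * e.2 ^ 2 ≠ 0 ∧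
        (∀ p : ℕ, p.Prime → ¬ ((p : ℤ) ^ 4 ∣ e.1 ∧ (p : ℤ) ^ 6 ∣ e.2)) ∧
        ((max (4 * |e.1| ^ 3) (27 * e.2 ^ 2) : ℤ) : ℝ) < X) →
      c * S.card ≤ {e : ℤ × ℤ | e ∈ S ∧ ∃ T : Finset
        (⟨0, 0, 0, (e.1 : F), (e.2 : F)⟩ : WeierstrassCurve F).toAffine.Point,
          ∀ R, R ∈ T}.ncard := by
  have : Fact (Nat.Prime 2) := ⟨Nat.prime_two⟩
  obtain ⟨P⟩ : Nonempty (Sylow 2 (F ≃ₐ[ℚ] F)) := inferInstance
  refine finite F (fun _ _ _ _ _ _ => inferInstance) P P.isPGroup'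
    (Nat.Coprime.dvd_of_dvd_mul_right (Nat.Coprime.pow_right k
      ((Nat.prime_two.coprime_iff_not_dvd.2 P.not_dvd_index).symm))
      ((Subgroup.index_dvd_card _).trans hk)) fun g p hp => ?_
  rwa [(IsCyclic.commGroup (α := F ≃ₐ[ℚ] F)).mul_comm g p, mul_inv_cancel_right]

end Pool.Agent.Results.MP_775b3b_nt.ArtinCyclic
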