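import Pool.Agent.Lib.MP_775b3b_nt.Mult

namespace Pool.Agent.Results.MP_775b3b_nt.AvgRank

open Pool.Agent.Lib.MP_775b3b_nt

/-- `y^2 = x^3 + a x + b` with `e = (a, b)` is nonsingular, minimal, and of height below `X`. -/
def Counted (X : ℝ) (e : ℤ × ℤ) : Prop :=
  4 * e.1 ^ 3 + 27 * e.2 ^ 2 ≠ 0 ∧
    (∀ p : ℕ, p.Prime → ¬ ((p : ℤ) ^ 4 ∣ e.1 ∧ (p : ℤ) ^ 6 ∣ e.2)) ∧
    ((max (4 * |e.1| ^ 3) (27 * e.2 ^ 2) : ℤ) : ℝ) < X

/-- The rank of the group of `L`-points of `y^2 = x^3 + a x + b`, `e = (a, b)`. -/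
noncomputable def rk (e : ℤ × ℤ) (L : Type) [Field L] [DecidableEq L] : ℕ :=
  Module.finrank ℤ (⟨0, 0, 0, (e.1 : L), (e.2 : L)⟩ : WeierstrassCurve L).toAffine.Point

/-- Let `K / ℚ` be Galois with group `G`, and `P ≤ A ≤ G` with `P` a 2-group, `A` of 2-power index,
`A / P` of exponent 3 with `G` acting on each element by `± 1`, and let `D ≠ 0`.  There is one
function `r` of the curve `y^2 = x^3 + A x + B`, with a bounded exponential moment in the height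
order, such that `rk E(L) ≤ r(E) [L : K]` for every field `L` between `K` and a Galois extension of
`K` with Galois group a 2-group, if all primes of the discriminant of `L` divide `D`. -/
theorem result (K : Type) [Field K] [NumberField K] [IsGalois ℚ K]
    (P A : Subgroup (K ≃ₐ[ℚ] K)) (hP : IsPGroup 2 P) (hPA : P ≤ A) (hA : ∃ j, A.index = 2 ^ j)
    (h3 : ∀ a ∈ A, a ^ 3 ∈ P)
    (hc : ∀ g, ∀ a ∈ A, g * a * g⁻¹ * a⁻¹ ∈ P ∨ g * a * g⁻¹ * a ∈ P) (D : ℕ) (hD : D ≠ 0) :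
    ∃ (r : ℤ × ℤ → ℕ) (l C : ℝ), 1 < l ∧
      (∀ (X : ℝ) (S : Finset (ℤ × ℤ)), (∀ e : ℤ × ℤ, e ∈ S ↔ Counted X e) →
        ∑ e ∈ S, l ^ r e ≤ C * S.card) ∧
      ∀ (F : Type) [Field F] [NumberField F] [Algebra K F] [IsGalois K F],
        IsPGroup 2 (F ≃ₐ[K] F) → ∀ (L : IntermediateField K F) [DecidableEq L],
          (∀ p : ℕ, p.Prime → (p : ℤ) ∣ NumberField.discr L → p ∣ D) →
          ∀ e : ℤ × ℤ, 4 * e.1 ^ 3 + 27 * e.2 ^ 2 ≠ 0 → rk e L ≤ r e * Module.finrank K L := by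
  obtain ⟨j, hj⟩ := hA
  obtain ⟨r, ⟨l, hl, C, hC⟩, hr⟩ := (expBd_gen hP hPA hj h3 hc).unif hD
  obtain ⟨c, hc0, hc⟩ := exists_box
  refine ⟨r, l, |C| * c, hl, fun X S hS => ?_, hr⟩
  rcases S.eq_empty_or_nonempty with rfl | hne
  · simp
  obtain ⟨T, hT, h1, h2⟩ := hc X S hS hne
  refine (Finset.sum_le_sum_of_subset_of_nonneg h1 fun _ _ _ => by positivity).trans
    ((hC T hT).trans ?_)
  rw [mul_assoc]
  gcongr
  exact le_abs_self C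

/-- The case `L = K`: the rank of `E(K)` has a bounded exponential moment. -/
theorem single_field (F : Type) [Field F] [NumberField F] [DecidableEq F] [IsGalois ℚ F]
    (P A : Subgroup (F ≃ₐ[ℚ] F)) (hP : IsPGroup 2 P) (hPA : P ≤ A) (hA : ∃ j, A.index = 2 ^ j)
    (h3 : ∀ a ∈ A, a ^ 3 ∈ P)
    (hc : ∀ g, ∀ a ∈ A, g * a * g⁻¹ * a⁻¹ ∈ P ∨ g * a * g⁻¹ * a ∈ P) :
    ∃ l : ℝ, 1 < l ∧ ∃ C : ℝ, ∀ (X : ℝ) (S : Finset (ℤ × ℤ)),
      (∀ e : ℤ × ℤ, e ∈ S ↔ 4 * e.1 ^ 3 + 27 * e.2 ^ 2 ≠ 0 ∧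
        (∀ p : ℕ, p.Prime → ¬ ((p : ℤ) ^ 4 ∣ e.1 ∧ (p : ℤ) ^ 6 ∣ e.2)) ∧
        ((max (4 * |e.1| ^ 3) (27 * e.2 ^ 2) : ℤ) : ℝ) < X) →
      ∑ e ∈ S, l ^ Module.finrank ℤ
          (⟨0, 0, 0, (e.1 : F), (e.2 : F)⟩ : WeierstrassCurve F).toAffine.Point ≤ C * S.card := by
  classical
  obtain ⟨r, l, C, hl, h1, h2⟩ := result F P A hP hPA hA h3 hc (NumberField.discr F).natAbs
    (Int.natAbs_ne_zero.2 (NumberField.discr_ne_zero F))
  refine ⟨l, hl, C, fun X S hS => (Finset.sum_le_sum fun e he => ?_).trans (h1 X S hS)⟩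
  have h4 := h2 F (IsPGroup.of_card (n := 0) (by rw [IsGalois.card_aut_eq_finrank]; simp)) ⊤
    (fun p _ hq => Int.natCast_dvd.1 (hq.trans (NumberField.discr_dvd_discr _ _))) e
    ((hS e).1 he).1
  rw [IntermediateField.finrank_top', Module.finrank_self, mul_one] at h4
  refine pow_le_pow_right₀ hl.le (le_trans ?_ h4)
  exact rank_mono (IntermediateField.topEquiv (F := F) (E := F)).symm.toRingEquiv.toRingHom
    ((hS e).1 he).1

/-- Multiplicities: with the same `r`, every irreducible complex representation `ρ` of the group of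
a Galois field `F / ℚ` that is a 2-extension of `K` ramified only at primes of `D` occurs at most
`2 r(E) dim ρ` times in `ℂ ⊗ E(F)`. -/
theorem multiplicity (K : Type) [Field K] [NumberField K] [IsGalois ℚ K]
    (P A : Subgroup (K ≃ₐ[ℚ] K)) (hP : IsPGroup 2 P) (hPA : P ≤ A) (hA : ∃ j, A.index = 2 ^ j)
    (h3 : ∀ a ∈ A, a ^ 3 ∈ P)
    (hc : ∀ g, ∀ a ∈ A, g * a * g⁻¹ * a⁻¹ ∈ P ∨ g * a * g⁻¹ * a ∈ P) (D : ℕ) (hD : D ≠ 0) :
    ∃ (r : ℤ × ℤ → ℕ) (l C : ℝ), 1 < l ∧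
      (∀ (X : ℝ) (S : Finset (ℤ × ℤ)), (∀ e : ℤ × ℤ, e ∈ S ↔ Counted X e) →
        ∑ e ∈ S, l ^ r e ≤ C * S.card) ∧
      ∀ (F : Type) [Field F] [NumberField F] [DecidableEq F] [Algebra K F] [IsGalois ℚ F],
        IsPGroup 2 (F ≃ₐ[K] F) → (∀ p : ℕ, p.Prime → (p : ℤ) ∣ NumberField.discr F → p ∣ D) →
        ∀ (W : Type) [AddCommGroup W] [Module ℂ W] [FiniteDimensional ℂ W]
          (ρ : Representation ℂ (F ≃ₐ[ℚ] F) W), ρ.IsIrreducible →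
        ∀ e : ℤ × ℤ, 4 * e.1 ^ 3 + 27 * e.2 ^ 2 ≠ 0 →
          Module.finrank ℂ (Submodule.span ℂ {T : W →ₗ[ℂ] TensorProduct ℤ ℂ
            (WeierstrassCurve.Affine.baseChange
              (⟨0, 0, 0, (e.1 : ℚ), (e.2 : ℚ)⟩ : WeierstrassCurve ℚ).toAffine F).Point |
            ∀ (g : F ≃ₐ[ℚ] F) (w : W), T (ρ g w) = LinearMap.baseChange ℂ
              (WeierstrassCurve.Affine.Point.map (g : F →ₐ[ℚ] F)).toIntLinearMap (T w)}) ≤
            2 * r e * Module.finrank ℂ W := by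
  obtain ⟨r, l, C, hl, h1, h2⟩ := result K P A hP hPA hA h3 hc D hD
  refine ⟨r, l, C, hl, h1, fun F _ _ _ _ _ hF hd W _ _ _ ρ hρ e he => ?_⟩
  have := IsGalois.tower_top_of_isGalois ℚ K F
  exact mult_of_rank hF he (fun L _ => h2 F hF L
    (fun p hp hq => hd p hp (hq.trans (NumberField.discr_dvd_discr _ _))) e he) hρ

end Pool.Agent.Results.MP_775b3b_nt.AvgRank
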