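import Pool.Agent.Lib.MP_775b3b_nt.M2.Top
import Pool.Agent.Lib.MP_775b3b_nt.M2.Rep

namespace Pool.Agent.Results.MP_775b3b_nt.IndexFour

open Pool.Agent.Lib.MP_775b3b_nt

/-- Let `F / ℚ` be any finite Galois extension with group `G`, let `H` be a subgroup of index at
most four and `ψ : G → {± 1}` a homomorphism.  For a positive proportion of the curves
`y^2 = x^3 + A x + B` ordered by height, no irreducible representation with a vector `w ≠ 0` on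
which `H` acts through `ψ` occurs in `ℂ ⊗ E(F)`. -/
theorem result (F : Type) [Field F] [NumberField F] [DecidableEq F] [IsGalois ℚ F]
    (H : Subgroup (F ≃ₐ[ℚ] F)) (h4 : H.index ≤ 4) (ψ : (F ≃ₐ[ℚ] F) →* ℤˣ) :
    ∃ c : ℝ, 0 < c ∧ ∃ X₀ : ℝ, ∀ X : ℝ, X₀ ≤ X → ∀ S : Finset (ℤ × ℤ),
      (∀ e : ℤ × ℤ, e ∈ S ↔ 4 * e.1 ^ 3 + 27 * e.2 ^ 2 ≠ 0 ∧
        (∀ p : ℕ, p.Prime → ¬ ((p : ℤ) ^ 4 ∣ e.1 ∧ (p : ℤ) ^ 6 ∣ e.2)) ∧
        ((max (4 * |e.1| ^ 3) (27 * e.2 ^ 2) : ℤ) : ℝ) < X) →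
      c * S.card ≤ {e : ℤ × ℤ | e ∈ S ∧ ∀ (W : Type) [AddCommGroup W] [Module ℂ W]
        (ρ : Representation ℂ (F ≃ₐ[ℚ] F) W), ρ.IsIrreducible →
        (∃ w : W, w ≠ 0 ∧ ∀ h ∈ H, ρ h w = (((ψ h : ℤˣ) : ℤ) : ℂ) • w) →
        ∀ T : W →ₗ[ℂ] TensorProduct ℤ ℂ (WeierstrassCurve.Affine.baseChange
            (⟨0, 0, 0, (e.1 : ℚ), (e.2 : ℚ)⟩ : WeierstrassCurve ℚ).toAffine F).Point,
          (∀ (g : F ≃ₐ[ℚ] F) (w : W), T (ρ g w) = LinearMap.baseChange ℂ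
            (WeierstrassCurve.Affine.Point.map (g : F →ₐ[ℚ] F)).toIntLinearMap (T w)) →
          T = 0}.ncard := by
  classical
  obtain ⟨c, hc, X₀, hX⟩ := dens_eig F H h4 ψ
  refine ⟨c, hc, X₀, fun X h1 S hS => (hX X h1 S hS).trans (Nat.cast_le.2 ?_)⟩
  rw [← Set.ncard_coe_finset]
  refine Set.ncard_le_ncard (fun e he => ?_) (S.finite_toSet.subset fun e he => he.1)
  simp only [Finset.coe_filter, Set.mem_ofPred_eq] at he
  exact ⟨he.1, fun W _ _ ρ hρ ⟨w, h0, hw⟩ T hT => intertw_eq_zero'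
    (fun g : F ≃ₐ[ℚ] F => WeierstrassCurve.Affine.Point.map (g : F →ₐ[ℚ] F)) H (fun g => ψ g) he.2
    hρ h0 hw hT⟩

/-- Special case: an irreducible representation `ρ` that is trivial on the common kernel of an
action on a set `L` of at most four letters and of a homomorphism to `{± 1}` has multiplicity zero
in `ℂ ⊗ E(F)` for a positive proportion of the curves. -/
theorem quartic (F : Type) [Field F] [NumberField F] [DecidableEq F] [IsGalois ℚ F]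
    (L : Finset ℤ) (hL : L.card ≤ 4) (φ : (F ≃ₐ[ℚ] F) →* (L ≃ L)) (ψ : (F ≃ₐ[ℚ] F) →* ℤˣ)
    (W : Type) [AddCommGroup W] [Module ℂ W] (ρ : Representation ℂ (F ≃ₐ[ℚ] F) W)
    (hρ : ρ.IsIrreducible) (hk : ∀ g, φ g = 1 → ψ g = 1 → ρ g = 1) :
    ∃ c : ℝ, 0 < c ∧ ∃ X₀ : ℝ, ∀ X : ℝ, X₀ ≤ X → ∀ S : Finset (ℤ × ℤ),
      (∀ e : ℤ × ℤ, e ∈ S ↔ 4 * e.1 ^ 3 + 27 * e.2 ^ 2 ≠ 0 ∧
        (∀ p : ℕ, p.Prime → ¬ ((p : ℤ) ^ 4 ∣ e.1 ∧ (p : ℤ) ^ 6 ∣ e.2)) ∧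
        ((max (4 * |e.1| ^ 3) (27 * e.2 ^ 2) : ℤ) : ℝ) < X) →
      c * S.card ≤ {e : ℤ × ℤ | e ∈ S ∧
        ∀ T : W →ₗ[ℂ] TensorProduct ℤ ℂ (WeierstrassCurve.Affine.baseChange
            (⟨0, 0, 0, (e.1 : ℚ), (e.2 : ℚ)⟩ : WeierstrassCurve ℚ).toAffine F).Point,
          (∀ (g : F ≃ₐ[ℚ] F) (w : W), T (ρ g w) = LinearMap.baseChange ℂ
            (WeierstrassCurve.Affine.Point.map (g : F →ₐ[ℚ] F)).toIntLinearMap (T w)) →
          T = 0}.ncard := by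
  classical
  obtain ⟨ι⟩ : Nonempty (L ↪ Fin 4) := Function.Embedding.nonempty_of_card_le (by simpa using hL)
  have : Nontrivial W := by
    by_contra h
    have := not_nontrivial_iff_subsingleton.1 h
    obtain ⟨a, b, hab⟩ := hρ.toNontrivial
    exact hab (Subrepresentation.toSubmodule_injective (Subsingleton.elim _ _))
  obtain ⟨H, χ, w, h4, h0, hw⟩ := exists_eig4 ρ ((Equiv.Perm.viaEmbeddingHom ι).comp φ) ψ
    fun g h => hk g (Equiv.Perm.viaEmbeddingHom_injective ι (h.trans (map_one _).symm))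
  obtain ⟨c, hc, X₀, h⟩ := result F H h4 χ
  refine ⟨c, hc, X₀, fun X h1 S hS => (h X h1 S hS).trans (Nat.cast_le.2 ?_)⟩
  exact Set.ncard_le_ncard (fun e he => ⟨he.1, he.2 W ρ hρ ⟨w, h0, hw⟩⟩)
    (S.finite_toSet.subset fun e he => he.1)

/-- Special case: if the number field `K` is spanned over `ℚ` by a set `B` of at most four
elements, a positive proportion of the curves have finitely many points over `K`. -/
theorem lowDegree (K : Type) [Field K] [NumberField K]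
    (B : Finset K) (hB : B.card ≤ 4) (hK : ∀ x : K, ∃ a : K → ℚ, x = ∑ y ∈ B, a y • y) :
    ∃ c : ℝ, 0 < c ∧ ∃ X₀ : ℝ, ∀ X : ℝ, X₀ ≤ X → ∀ S : Finset (ℤ × ℤ),
      (∀ e : ℤ × ℤ, e ∈ S ↔ 4 * e.1 ^ 3 + 27 * e.2 ^ 2 ≠ 0 ∧
        (∀ p : ℕ, p.Prime → ¬ ((p : ℤ) ^ 4 ∣ e.1 ∧ (p : ℤ) ^ 6 ∣ e.2)) ∧
        ((max (4 * |e.1| ^ 3) (27 * e.2 ^ 2) : ℤ) : ℝ) < X) →
      c * S.card ≤ {e : ℤ × ℤ | e ∈ S ∧ ∃ T : Finset
        (⟨0, 0, 0, (e.1 : K), (e.2 : K)⟩ : WeierstrassCurve K).toAffine.Point,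
          ∀ R, R ∈ T}.ncard := by
  classical
  have h4 : Module.finrank ℚ K ≤ 4 := by
    have h1 : Submodule.span ℚ (B : Set K) = ⊤ := eq_top_iff.2 fun x _ => by
      obtain ⟨a, rfl⟩ := hK x
      exact Submodule.sum_mem _ fun y hy => Submodule.smul_mem _ _ (Submodule.subset_span hy)
    rw [← finrank_top, ← h1]
    exact (finrank_span_finset_le_card B).trans hB
  obtain ⟨c, hc, X₀, h⟩ := Many.dens_one (r := fun e => Finite (crv e K).toAffine.Point)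
    (many_fin K h4)
  refine ⟨c, hc, X₀, fun X h1 S hS => (h X h1 S hS).trans (Nat.cast_le.2 ?_)⟩
  rw [← Set.ncard_coe_finset]
  refine Set.ncard_le_ncard (fun e he => ?_) (S.finite_toSet.subset fun e he => he.1)
  simp only [Finset.coe_filter, Set.mem_ofPred_eq] at he
  have : Finite (⟨0, 0, 0, (e.1 : K), (e.2 : K)⟩ : WeierstrassCurve K).toAffine.Point := he.2
  exact ⟨he.1, (Set.finite_univ).toFinset, fun R => by simp⟩

end Pool.Agent.Results.MP_775b3b_nt.IndexFour
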